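import Pool.Agent.Helper17.CR.Stmts

set_option autoImplicit false

namespace Pool.Agent.Helper74.CR

open Pool.Agent.Helper17.CR

open scoped commutatorElement

universe u

/-- a nilpotent normal subgroup between `A` and `C` -/
theorem fitc_key (G : Type u) [Group G] [Finite G] [Group.IsSolvable G] (A C : Subgroup G)
    (hA : A.Normal) (hC : C.Normal) (hAC : A ≤ C) (hcen : ∀ a ∈ A, ∀ c ∈ C, a * c = c * a)
    (hne : ¬ C ≤ A) : ∃ N : Subgroup G, N.Normal ∧ A ≤ N ∧ N ≤ C ∧ ¬ N ≤ A ∧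
      Group.IsNilpotent N := by
  obtain ⟨D, ⟨hD1, hD2, hD3⟩, hmin⟩ := WellFounded.has_min
    (wellFounded_lt (α := Subgroup G)) {D : Subgroup G | D.Normal ∧ D ≤ C ∧ ¬ D ≤ A} ⟨C, hC, le_rfl, hne⟩
  have hD0 : D ≠ ⊥ := by
    rintro rfl
    exact hD3 bot_le
  have hlt : ⁅D, D⁆ < D := Group.IsSolvable.commutator_lt_of_ne_bot hD0
  have hDA : ⁅D, D⁆ ≤ A := by
    by_contra h
    exact hmin ⁅D, D⁆ ⟨inferInstance, hlt.le.trans hD2, h⟩ hlt
  have hNC : D ⊔ A ≤ C := sup_le hD2 hAC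
  refine ⟨D ⊔ A, inferInstance, le_sup_right, hNC, fun h => hD3 (le_sup_left.trans h), ?_⟩
  have h1 : ⁅D ⊔ A, D ⊔ A⁆ ≤ A := by
    rw [Subgroup.commutator_le]
    intro x hx y hy
    obtain ⟨d, hd, a, ha, rfl⟩ := Subgroup.mem_sup_of_normal_right.1 hx
    obtain ⟨d', hd', a', ha', rfl⟩ := Subgroup.mem_sup_of_normal_right.1 hy
    have e1 : ∀ c ∈ C, a * c = c * a := hcen a ha
    have e2 : ∀ c ∈ C, a' * c = c * a' := hcen a' ha'
    have e3 : ⁅d * a, d' * a'⁆ = ⁅d, d'⁆ := by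
      have f1 := e1 d' (hD2 hd')
      have f2 := e2 d (hD2 hd)
      have f3 := e1 a' (hAC ha')
      have g1 : d * a * (d' * a') = d * d' * (a * a') := by
        rw [mul_assoc, ← mul_assoc a, f1, mul_assoc, mul_assoc]
      have g2 : d' * a' * (d * a) = d' * d * (a * a') := by
        rw [mul_assoc, ← mul_assoc a', f2, mul_assoc, mul_assoc, f3]
      rw [commutatorElement_def, commutatorElement_def]
      calc d * a * (d' * a') * (d * a)⁻¹ * (d' * a')⁻¹
          = (d * a * (d' * a')) * (d' * a' * (d * a))⁻¹ := by group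
        _ = d * d' * d⁻¹ * d'⁻¹ := by rw [g1, g2]; group
    rw [e3]
    exact hDA (Subgroup.commutator_mem_commutator hd hd')
  have h2 : ⁅⁅D ⊔ A, D ⊔ A⁆, D ⊔ A⁆ = ⊥ := by
    rw [eq_bot_iff, Subgroup.commutator_le]
    intro x hx y hy
    rw [Subgroup.mem_bot, commutatorElement_eq_one_iff_mul_comm]
    exact hcen x (h1 hx) y (hNC hy)
  exact Subgroup.isNilpotent_of_lowerCentralSeries_eq_bot (n := 2) h2

theorem st_FITC : ST_FITC.{u} := by
  intro G _ _ _ p F hp hF hpF hmax hq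
  by_contra hne
  obtain ⟨N, hN, h1, h2, h3, h4⟩ := fitc_key G (Subgroup.centralizer (F : Set G) ⊓ F)
    (Subgroup.centralizer (F : Set G)) inferInstance inferInstance inf_le_left
    (fun a ha c hc => by
      have := Subgroup.mem_centralizer_iff.1 hc a ha.2
      exact this) (fun h => hne (h.trans inf_le_right))
  apply h3
  refine le_inf h2 (hmax N hN ?_)
  have hpf : Fact p.Prime := ⟨hp⟩
  have key : ∀ q : ℕ, q.Prime → q ∣ Nat.card N → q = p := by
    intro q hqp hqd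
    by_contra hqn
    have : Fact q.Prime := ⟨hqp⟩
    obtain ⟨P⟩ : Nonempty (Sylow q N) := inferInstance
    have hPn : (P : Subgroup N).Normal := inferInstance
    have hPc : (P : Subgroup N).Characteristic := Sylow.characteristic_of_normal P hPn
    have hPG : ((P : Subgroup N).map N.subtype).Normal := inferInstance
    have hPb := hq q hqp hqn _ hPG (P.isPGroup'.map N.subtype)
    rw [Subgroup.map_eq_bot_iff_of_injective _ N.subtype_injective] at hPb
    exact P.ne_bot_of_dvd_card hqd hPb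
  rw [IsPGroup.iff_card]
  refine ⟨_, Nat.eq_prime_pow_of_unique_prime_dvd Nat.card_pos.ne' fun {q} hqp hqd => key q hqp hqd⟩

theorem st_MAXC : ST_MAXC.{u} := by
  intro G _ _ _ M hM hcyc hnil
  obtain ⟨A, ⟨hA1, hA2, hA3⟩, hmax⟩ := WellFounded.has_min
    (wellFounded_gt (α := Subgroup G)) {A : Subgroup G | A.Normal ∧ M ≤ A ∧ IsCyclic A}
    ⟨M, hM, le_rfl, hcyc M hM le_rfl hnil⟩
  refine ⟨A, hA1, hA2, hA3, ?_⟩
  by_contra hne
  have hAC : A ≤ Subgroup.centralizer (A : Set G) := by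
    intro x hx
    rw [Subgroup.mem_centralizer_iff]
    intro y hy
    obtain ⟨g, hg⟩ := hA3.exists_generator
    obtain ⟨i, hi⟩ := Subgroup.mem_zpowers_iff.1 (hg ⟨y, hy⟩)
    obtain ⟨j, hj⟩ := Subgroup.mem_zpowers_iff.1 (hg ⟨x, hx⟩)
    have h : (⟨y, hy⟩ : A) * ⟨x, hx⟩ = ⟨x, hx⟩ * ⟨y, hy⟩ := by
      rw [← hi, ← hj, ← zpow_add, ← zpow_add, add_comm]
    exact congrArg Subtype.val h
  obtain ⟨N, hN, h1, h2, h3, h4⟩ := fitc_key G A (Subgroup.centralizer (A : Set G)) hA1 inferInstance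
    hAC (fun a ha c hc => Subgroup.mem_centralizer_iff.1 hc a ha) hne
  exact hmax N ⟨hN, hA2.trans h1, hcyc N hN (hA2.trans h1) h4⟩ (lt_of_le_not_ge h1 h3)

end Pool.Agent.Helper74.CR
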