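import Pool.Agent.Helper17.CR.Stmts

set_option autoImplicit false

namespace Pool.Agent.Helper74.CR

open Pool.Agent.Helper17.CR Finset

universe u

section
variable {X : Type u} [Fintype X] [DecidableEq X]

/-- a permutation matrix -/
def pow_P (t : Equiv.Perm X) : Matrix X X ℤ := fun x y => if x = t y then 1 else 0

omit [Fintype X] in
theorem pow_P_one : pow_P (1 : Equiv.Perm X) = 1 := by
  ext x y
  simp only [pow_P, Matrix.one_apply, Equiv.Perm.one_apply]
  by_cases h : x = y <;> simp [h]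

theorem pow_P_mul (t s : Equiv.Perm X) : pow_P t * pow_P s = pow_P (t * s) := by
  ext x y
  rw [Matrix.mul_apply, Finset.sum_eq_single (s y)]
  · simp only [pow_P, if_true, mul_one, Equiv.Perm.mul_apply]
    by_cases h : x = t (s y) <;> simp [h]
  · intro z _ hz
    simp [pow_P, hz]
  · intro h
    exact absurd (mem_univ _) h

theorem pow_J_mul_P (t : Equiv.Perm X) : JJ X ℤ * pow_P t = JJ X ℤ := by
  ext x y
  rw [Matrix.mul_apply, Finset.sum_eq_single (t y)]
  · simp [pow_P, JJ]
  · intro z _ hz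
    simp [pow_P, hz]
  · intro h
    exact absurd (mem_univ _) h

theorem pow_P_mul_J (t : Equiv.Perm X) : pow_P t * JJ X ℤ = JJ X ℤ := by
  ext x y
  rw [Matrix.mul_apply, Finset.sum_eq_single (t.symm x)]
  · simp [pow_P, JJ]
  · intro z _ hz
    have : x ≠ t z := fun h => hz (by rw [h, Equiv.symm_apply_apply])
    simp [pow_P, this]
  · intro h
    exact absurd (mem_univ _) h

omit [DecidableEq X] in
theorem pow_J_mul_J : JJ X ℤ * JJ X ℤ = (Fintype.card X : ℤ) • JJ X ℤ := by
  ext x y
  rw [Matrix.mul_apply]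
  simp [JJ]

theorem pow_ind (t : Equiv.Perm X) (n l : ℤ) (M : ℕ) : ∃ mu : ℤ,
    (n • pow_P t + l • JJ X ℤ) ^ M = (n ^ M) • pow_P (t ^ M) + mu • JJ X ℤ := by
  induction M with
  | zero =>
    refine ⟨0, ?_⟩
    rw [pow_zero, pow_zero, pow_zero, one_smul, zero_smul, add_zero, pow_P_one]
  | succ M ih =>
    obtain ⟨mu, h⟩ := ih
    refine ⟨n ^ M * l + mu * n + mu * l * (Fintype.card X : ℤ), ?_⟩
    rw [pow_succ, h, add_mul, mul_add, mul_add, Matrix.smul_mul, Matrix.smul_mul, Matrix.smul_mul,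
      Matrix.smul_mul, Matrix.mul_smul, Matrix.mul_smul, Matrix.mul_smul, Matrix.mul_smul,
      pow_P_mul, pow_J_mul_P, pow_P_mul_J, pow_J_mul_J]
    rw [smul_smul, smul_smul, smul_smul, smul_smul, smul_smul, ← pow_succ, ← pow_succ, add_smul,
      add_smul, add_assoc, ← add_assoc ((n ^ M * l) • JJ X ℤ)]

end

theorem st_POW : ST_POW.{u} := by
  intro X _ _ lam k c θ σ h hσ
  have h1 : ∀ x, (univ.filter (fun y => x ∈ θ y)).card = k := by
    intro x
    rw [← h.card x]
    refine Finset.card_bij (fun y _ => σ y) (fun y hy => ?_) (fun y _ z _ hyz => σ.injective hyz)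
      fun z hz => ?_
    · exact (h.cor x y).1 (mem_filter.1 hy).2
    · refine ⟨σ.symm z, mem_filter.2 ⟨mem_univ _, ?_⟩, σ.apply_symm_apply z⟩
      rw [h.cor, σ.apply_symm_apply]
      exact hz
  refine ⟨fun x => ?_, fun y => ?_, ?_⟩
  · have := h1 x
    simp only [inc]
    rw [Finset.sum_boole, this]
  · have := h.card y
    simp only [inc]
    rw [Finset.sum_boole, Finset.filter_mem_eq_inter, Finset.univ_inter, this]
  · have h2 : inc θ ^ 2 = ((k : ℤ) - lam) • pow_P σ + (lam : ℤ) • JJ X ℤ := by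
      ext x y
      rw [pow_two, Matrix.mul_apply]
      have e1 : ∀ z, inc θ x z * inc θ z y = if x ∈ θ z ∧ σ y ∈ θ z then 1 else 0 := by
        intro z
        simp only [inc, h.cor z y]
        by_cases a : x ∈ θ z <;> by_cases b : σ y ∈ θ z <;> simp [a, b]
      rw [Finset.sum_congr rfl fun z _ => e1 z, Finset.sum_boole]
      by_cases hx : x = σ y
      · have e2 : (univ.filter (fun z => x ∈ θ z ∧ σ y ∈ θ z)).card = k := by
          rw [← h1 x]
          congr 1
          ext z
          simp [hx]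
        rw [e2]
        simp only [Matrix.add_apply, Matrix.smul_apply, pow_P, JJ, if_pos hx, smul_eq_mul, mul_one]
        ring
      · rw [h.pair x (σ y) hx]
        simp only [Matrix.add_apply, Matrix.smul_apply, pow_P, JJ, if_neg hx, smul_eq_mul, mul_one]
        ring
    obtain ⟨mu, hmu⟩ := pow_ind (X := X) σ ((k : ℤ) - lam) lam (2 ^ c)
    refine ⟨mu, ?_⟩
    have e3 : 2 ^ (c + 1) = 2 * 2 ^ c := by ring
    rw [e3, pow_mul, h2, hmu, hσ, pow_P_one]

end Pool.Agent.Helper74.CR
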